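import Pool.Agent.H87.IS.Stmts

/-! # Board `isq`, row ONE: polynomials in one variable -/

set_option autoImplicit false

namespace Pool.Agent.H87.IS

open MvPolynomial Pool.Agent.H39.MonoR Pool.Agent.H75.Mono Pool.Agent.H87.QF

namespace ONEAux

theorem coeff_aeval_X {k : Type} [Field k] (Q : Polynomial k) (e : Fin (0 + 1) →₀ ℕ) :
    coeff e (Polynomial.aeval (X 0 : MvPolynomial (Fin (0 + 1)) k) Q) = Q.coeff (e 0) := by
  classical
  have hsub : Subsingleton (Fin (0 + 1)) := inferInstanceAs (Subsingleton (Fin 1))
  induction Q using Polynomial.induction_on' with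
  | add p q hp hq => rw [map_add, coeff_add, hp, hq, Polynomial.coeff_add]
  | monomial m c =>
    rw [Polynomial.aeval_monomial, MvPolynomial.algebraMap_eq, coeff_C_mul, coeff_X_pow,
      Polynomial.coeff_monomial]
    have : (Finsupp.single (0 : Fin (0 + 1)) m = e) ↔ m = e 0 := by
      constructor
      · rintro rfl
        simp
      · intro h
        ext i
        rw [Subsingleton.elim i 0, h]
        simp
    simp [this]

end ONEAux

theorem ONE : ONEStmt := by
  intro k _ _ _ σ _ _ f a hσ hN
  classical
  have hsub : Subsingleton (Fin (0 + 1)) := inferInstanceAs (Subsingleton (Fin 1))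
  have hch : CharZero k := charZero k
  obtain ⟨i0, hi0⟩ := Fintype.card_eq_one_iff.1 hσ
  -- the polynomial in one variable
  obtain ⟨p, hpf⟩ : ∃ p : Polynomial k, p = aeval (fun _ : σ => Polynomial.X) f := ⟨_, rfl⟩
  have hfp : Polynomial.aeval (X i0 : MvPolynomial σ k) p = f := by
    have h : (Polynomial.aeval (X i0 : MvPolynomial σ k)).comp
        (aeval (fun _ : σ => (Polynomial.X : Polynomial k))) = AlgHom.id k _ := by
      apply MvPolynomial.algHom_ext
      intro i
      simp [hi0 i]
    rw [hpf]
    exact DFunLike.congr_fun h f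
  let G : MvPolynomial (Fin (0 + 1)) k := Polynomial.aeval (X 0) p
  have hp : 0 < p.natDegree := by
    rw [Nat.pos_iff_ne_zero]
    intro h0
    rw [Polynomial.eq_C_of_natDegree_eq_zero h0, Polynomial.aeval_C] at hfp
    obtain ⟨i, hi⟩ := hN
    apply hi
    rw [← hfp, MvPolynomial.algebraMap_eq, pderiv_C]
  have hGx : ∀ x : Fin (0 + 1) → ℂ, aeval x G = Polynomial.aeval (x 0) p := by
    intro x
    have h := Polynomial.aeval_algHom_apply (aeval x : MvPolynomial (Fin (0 + 1)) k →ₐ[k] ℂ) (X 0) p
    rw [aeval_X] at h
    exact h.symm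
  have hpa : p - Polynomial.C a ≠ 0 := by
    intro h
    rw [sub_eq_zero] at h
    rw [h, Polynomial.natDegree_C] at hp
    exact lt_irrefl _ hp
  let T : Finset (Fin (0 + 1) → k) := (p - Polynomial.C a).roots.toFinset.image fun z => fun _ => z
  let Q : (Fin (0 + 1) → k) → Polynomial k := fun b => Polynomial.taylor (b 0) (p - Polynomial.C a)
  have hT : ∀ b ∈ T, (p - Polynomial.C a).eval (b 0) = 0 := by
    intro b hb
    obtain ⟨z, hz, rfl⟩ := Finset.mem_image.1 hb
    rw [Multiset.mem_toFinset, Polynomial.mem_roots hpa] at hz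
    exact hz
  have hsm : ∀ c : ℂ, Sm (X i0 : MvPolynomial σ k) c := by
    intro c x _
    refine ⟨i0, ?_⟩
    rw [pderiv_X_self, map_one]
    exact one_ne_zero
  have h := P3.gate (r := 0) (τ := fun _ : Fin (0 + 1) => σ) (G := G)
    (f := fun _ => (X i0 : MvPolynomial σ k)) (a := a) (T := T)
    (w := fun _ _ => 1) (n := fun b => (Q b).natTrailingDegree) (B := fun _ => ∅)
    ?_ ?_ ?_ (fun b _ i hi => absurd hi (by simp)) (fun _ => ⟨i0, by
      rw [pderiv_X_self]; exact one_ne_zero⟩)
    (fun b _ i => P3.of_sm (hsm _))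
  · -- transfer to `σ`
    have hcmp : Pool.Agent.H75.Mono.cmp G (fun _ : Fin (0 + 1) => (X i0 : MvPolynomial σ k)) =
        Polynomial.aeval (X ⟨0, i0⟩ : MvPolynomial (Σ _ : Fin (0 + 1), σ) k) p := by
      show aeval (fun i => rename (Sigma.mk i) (X i0 : MvPolynomial σ k))
        (Polynomial.aeval (X 0) p) = _
      rw [← Polynomial.aeval_algHom_apply, aeval_X, rename_X]
    rw [hcmp] at h
    let e : (Σ _ : Fin (0 + 1), σ) ≃ σ :=
      { toFun := fun x => x.2
        invFun := fun x => ⟨0, x⟩
        left_inv := fun x => by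
          obtain ⟨i, x⟩ := x
          have hi : i = 0 := Subsingleton.elim _ _
          subst hi
          rfl
        right_inv := fun x => rfl }
    have h2 := P3.equiv h e
    have h3 : rename e (Polynomial.aeval (X ⟨0, i0⟩ : MvPolynomial (Σ _ : Fin (0 + 1), σ) k) p) =
        f := by
      rw [← Polynomial.aeval_algHom_apply, rename_X]
      exact hfp
    rwa [h3] at h2
  · intro x hx _
    rw [hGx] at hx
    have hx2 : Polynomial.aeval (x 0) (p - Polynomial.C a) = 0 := by
      rw [map_sub, hx, Polynomial.aeval_C, sub_eq_zero]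
    obtain ⟨z, hz, hz'⟩ : ∃ z ∈ (p - Polynomial.C a).roots, x 0 = algebraMap k ℂ z := by
      have hsp := (IsAlgClosed.splits (p - Polynomial.C a)).eq_prod_roots
      rw [hsp, map_mul, Polynomial.aeval_C, map_multiset_prod, mul_eq_zero] at hx2
      rcases hx2 with h0 | h0
      · exfalso
        apply hpa
        rw [map_eq_zero] at h0
        exact Polynomial.leadingCoeff_eq_zero.1 h0
      · rw [Multiset.prod_eq_zero_iff, Multiset.map_map, Multiset.mem_map] at h0
        obtain ⟨r, hr1, hr⟩ := h0
        refine ⟨r, hr1, ?_⟩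
        simp only [Function.comp_apply, map_sub, Polynomial.aeval_X, Polynomial.aeval_C] at hr
        rw [sub_eq_zero] at hr
        exact hr
    refine ⟨fun _ => z, Finset.mem_image.2 ⟨z, Multiset.mem_toFinset.2 hz, rfl⟩, fun i => ?_⟩
    have hi : i = 0 := Subsingleton.elim _ _
    rw [hi]
    exact hz'
  · intro b hb
    have h1 : eval b G = p.eval (b 0) := by
      have h := Polynomial.aeval_algHom_apply (aeval b : MvPolynomial (Fin (0 + 1)) k →ₐ[k] k)
        (X 0) p
      rw [aeval_X] at h
      rw [← MvPolynomial.coe_aeval_eq_eval]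
      exact h.symm
    have h2 := hT b hb
    rw [Polynomial.eval_sub, Polynomial.eval_C, sub_eq_zero] at h2
    rw [h1, h2]
  · intro b hb
    have hQ0 : Q b ≠ 0 := by
      intro h
      exact hpa ((Polynomial.taylor_eq_zero _ _).1 h)
    have hm : 0 < (Q b).natTrailingDegree := by
      rw [Nat.pos_iff_ne_zero]
      intro h
      rcases Polynomial.natTrailingDegree_eq_zero.1 h with h | h
      · exact hQ0 h
      · apply h
        rw [Polynomial.taylor_coeff_zero]
        exact hT b hb
    set m := (Q b).natTrailingDegree with hmd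
    have hc : (Q b).coeff m ≠ 0 := by
      have := Polynomial.trailingCoeff_nonzero_iff_nonzero.2 hQ0
      exact this
    have hshift : aeval (fun i => X i + C (b i)) G - C a =
        Polynomial.aeval (X 0 : MvPolynomial (Fin (0 + 1)) k) (Q b) := by
      have h := Polynomial.aeval_algHom_apply (aeval (fun i => X i + C (b i)) :
        MvPolynomial (Fin (0 + 1)) k →ₐ[k] MvPolynomial (Fin (0 + 1)) k) (X 0) p
      rw [aeval_X] at h
      show aeval (fun i => X i + C (b i)) (Polynomial.aeval (X 0) p) - C a = _
      rw [← h]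
      simp only [Q, Polynomial.taylor_apply, Polynomial.aeval_comp, map_sub, map_add,
        Polynomial.aeval_X, Polynomial.aeval_C, MvPolynomial.algebraMap_eq]
    have hw : ∀ e : Fin (0 + 1) →₀ ℕ, Finsupp.weight (fun _ : Fin (0 + 1) => 1) e = e 0 := by
      intro e
      rw [Finsupp.weight_apply, Finsupp.sum_fintype _ _ (by simp)]
      have : (Finset.univ : Finset (Fin (0 + 1))) = {0} := by
        ext i
        simp [Subsingleton.elim i 0]
      rw [this, Finset.sum_singleton]
      simp
    refine ⟨hm, fun _ => ⟨one_pos, hm⟩, C ((Q b).coeff m) * X 0 ^ m,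
      Polynomial.aeval (X 0) (Q b - Polynomial.monomial m ((Q b).coeff m)), ?_, ?_, ?_, ?_⟩
    · show aeval (fun i => X i + C (b i)) G - C a = _
      rw [hshift, map_sub, Polynomial.aeval_monomial, MvPolynomial.algebraMap_eq]
      ring
    · have := ((isWeightedHomogeneous_X k (fun _ : Fin (0 + 1) => 1) 0).pow m).C_mul
        ((Q b).coeff m)
      simpa using this
    · intro e he
      rw [ONEAux.coeff_aeval_X, Polynomial.coeff_sub, Polynomial.coeff_monomial] at he
      rw [hw]
      by_contra hlt
      push Not at hlt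
      apply he
      rcases Nat.lt_or_ge (e 0) m with h | h
      · rw [Polynomial.coeff_eq_zero_of_lt_natTrailingDegree h, if_neg (by omega), sub_zero]
      · have : e 0 = m := by omega
        rw [this, if_pos rfl, sub_self]
    · intro x _ hx
      funext i
      have hi : i = 0 := Subsingleton.elim _ _
      have h2 := hx 0 (by simp)
      rw [Derivation.leibniz, pderiv_C, Derivation.leibniz_pow, pderiv_X_self] at h2
      simp only [smul_eq_mul, nsmul_eq_mul, map_mul, map_pow, map_natCast, aeval_X, mul_one,
        mul_zero, add_zero, aeval_C] at h2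
      rw [hi]
      rcases mul_eq_zero.1 h2 with h | h
      · exact h
      · rcases mul_eq_zero.1 h with h | h
        · exact absurd ((map_eq_zero _).1 h) hc
        · by_contra h3
          rcases mul_eq_zero.1 h with h | h
          · exact hm.ne' (by exact_mod_cast h)
          · exact pow_ne_zero _ h3 h

end Pool.Agent.H87.IS
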